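import Pool.Agent.Helper47.FLG.Alg

/-! Packet FLG-SV2: the second variation inequality for quarter pinched flag curvature. -/

namespace Pool.Agent.Helper47.FLG

open Finset Pool.Agent.Helper47.RFn

namespace SV2aux

/-- A nonnegative polynomial with vanishing terms of order zero and one has a nonnegative
second order coefficient (product form). -/
theorem coef (k1 k2 k3 k4 l2 l3 l4 m2 m3 m4 n2 n3 n4 : ℝ)
    (h : ∀ t : ℝ, 0 ≤ 4 * (1 + t * k1 + t ^ 2 * k2 + t ^ 3 * k3 + t ^ 4 * k4)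
          * (1 + t ^ 2 * m2 + t ^ 3 * m3 + t ^ 4 * m4)
        - (4 + t * (4 * k1) + t ^ 2 * l2 + t ^ 3 * l3 + t ^ 4 * l4)
          * (1 + t ^ 2 * n2 + t ^ 3 * n3 + t ^ 4 * n4)) :
    0 ≤ 4 * (k2 + m2) - (l2 + 4 * n2) := by
  set G : ℝ → ℝ := fun t => 4 * ((k2 + k3 * t + k4 * t ^ 2)
      + (1 + k1 * t) * (m2 + m3 * t + m4 * t ^ 2)
      + t ^ 2 * (k2 + k3 * t + k4 * t ^ 2) * (m2 + m3 * t + m4 * t ^ 2))
    - ((l2 + l3 * t + l4 * t ^ 2) + (4 + 4 * k1 * t) * (n2 + n3 * t + n4 * t ^ 2)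
      + t ^ 2 * (l2 + l3 * t + l4 * t ^ 2) * (n2 + n3 * t + n4 * t ^ 2)) with hG
  have hc : Continuous G := by
    rw [hG]; fun_prop
  have h0 : G 0 = 4 * (k2 + m2) - (l2 + 4 * n2) := by
    simp only [hG]; ring
  have hpos : ∀ t : ℝ, t ≠ 0 → 0 ≤ G t := by
    intro t ht
    have h1 := h t
    have h2 : 4 * (1 + t * k1 + t ^ 2 * k2 + t ^ 3 * k3 + t ^ 4 * k4)
          * (1 + t ^ 2 * m2 + t ^ 3 * m3 + t ^ 4 * m4)
        - (4 + t * (4 * k1) + t ^ 2 * l2 + t ^ 3 * l3 + t ^ 4 * l4)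
          * (1 + t ^ 2 * n2 + t ^ 3 * n3 + t ^ 4 * n4) = t ^ 2 * G t := by
      simp only [hG]; ring
    rw [h2] at h1
    have h3 : 0 < t ^ 2 := by positivity
    exact nonneg_of_mul_nonneg_right h1 h3
  rw [← h0]
  have hdense : Dense {t : ℝ | t ≠ 0} := by
    have := dense_compl_singleton (0 : ℝ)
    exact this
  have hclosed : IsClosed {t : ℝ | 0 ≤ G t} := isClosed_le continuous_const hc
  have hsub : closure {t : ℝ | t ≠ 0} ⊆ {t : ℝ | 0 ≤ G t} :=
    closure_minimal (fun t ht => hpos t ht) hclosed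
  exact hsub (hdense 0)

theorem dotLin {n : ℕ} (a b c d : Fin n → ℝ) (t : ℝ) :
    dot (fun i => 1 * a i + t * b i) (fun i => 1 * c i + t * d i)
      = dot a c + t * (dot a d + dot b c) + t ^ 2 * dot b d := by
  simp only [dot, mul_add, Finset.mul_sum, ← Finset.sum_add_distrib]
  refine Finset.sum_congr rfl fun i _ => ?_
  ring

theorem dotSb {n : ℕ} (i : Fin n) (u : Fin n → ℝ) : dot (sb i) u = u i := by
  simp [dot, sb]

theorem dotComm {n : ℕ} (u v : Fin n → ℝ) : dot u v = dot v u := by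
  simp only [dot]; exact Finset.sum_congr rfl fun i _ => mul_comm _ _

theorem sbv {n : ℕ} (i j : Fin n) : (sb i : Fin n → ℝ) j = if i = j then 1 else 0 := rfl

/-- expansion of the squared area -/
theorem wdExp {n : ℕ} (hn : ∀ u : Fin n → ℝ, nrm u = dot u u) (i0 i1 q : Fin n) (u : Fin n → ℝ)
    (h01 : i0 ≠ i1) (hq : q ≠ i0) (hu0 : u i0 = 0) (hu1 : u i1 = 0) (t : ℝ) :
    wd (fun i => 1 * (sb i1 : Fin n → ℝ) i + t * u i) (fun i => 1 * (sb i0 : Fin n → ℝ) i + t * (sb q : Fin n → ℝ) i)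
      = 1 + t ^ 2 * (dot u u + 1 - (if q = i1 then 1 else 0)) + t ^ 3 * 0
        + t ^ 4 * (dot u u - u q ^ 2) := by
  have e1 : dot (sb i1) u = 0 := by rw [dotSb, hu1]
  have e2 : dot u (sb i1) = 0 := by rw [dotComm, e1]
  have e3 : dot u (sb i0) = 0 := by rw [dotComm, dotSb, hu0]
  have e4 : dot u (sb q) = u q := by rw [dotComm, dotSb]
  have e5 : dot (sb i1) (sb i0 : Fin n → ℝ) = 0 := by rw [dotSb, sbv, if_neg h01]
  have e6 : dot (sb i1) (sb q : Fin n → ℝ) = if q = i1 then 1 else 0 := by rw [dotSb, sbv]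
  have e7 : dot (sb i0) (sb q : Fin n → ℝ) = 0 := by rw [dotSb, sbv, if_neg hq]
  have e8 : dot (sb q) (sb i0 : Fin n → ℝ) = 0 := by rw [dotComm, e7]
  have e9 : ∀ j : Fin n, dot (sb j) (sb j : Fin n → ℝ) = 1 := by
    intro j; rw [dotSb, sbv, if_pos rfl]
  rw [wd, hn, hn, dotLin, dotLin, dotLin, e1, e2, e3, e4, e5, e6, e7, e8, e9, e9, e9]
  by_cases h : q = i1
  · subst h
    simp only [if_true, hu1]
    ring
  · simp only [if_neg h]
    ring

/-- expansion of a product of four linear terms -/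
theorem kExp {n : ℕ} (R : T4 n)
    (hlin : ∀ (a a' b c d : Fin n → ℝ) (s t : ℝ),
    R4 R (fun i => s * a i + t * a' i) b c d = s * R4 R a b c d + t * R4 R a' b c d ∧
    R4 R b (fun i => s * a i + t * a' i) c d = s * R4 R b a c d + t * R4 R b a' c d ∧
    R4 R b c (fun i => s * a i + t * a' i) d = s * R4 R b c a d + t * R4 R b c a' d ∧
    R4 R b c d (fun i => s * a i + t * a' i) = s * R4 R b c d a + t * R4 R b c d a')
    (x u z ζ : Fin n → ℝ) (t : ℝ) :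
    R4 R (fun i => 1 * x i + t * u i) (fun i => 1 * z i + t * ζ i)
      (fun i => 1 * x i + t * u i) (fun i => 1 * z i + t * ζ i)
      = R4 R x z x z
        + t * (R4 R u z x z + R4 R x ζ x z + R4 R x z u z + R4 R x z x ζ)
        + t ^ 2 * (R4 R u ζ x z + R4 R u z u z + R4 R u z x ζ + R4 R x ζ u z + R4 R x ζ x ζ
            + R4 R x z u ζ)
        + t ^ 3 * (R4 R u ζ u z + R4 R u ζ x ζ + R4 R u z u ζ + R4 R x ζ u ζ)
        + t ^ 4 * R4 R u ζ u ζ := by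
  have h1 : ∀ b c d, R4 R (fun i => 1 * x i + t * u i) b c d = 1 * R4 R x b c d + t * R4 R u b c d :=
    fun b c d => (hlin x u b c d 1 t).1
  have h2 : ∀ b c d, R4 R b (fun i => 1 * z i + t * ζ i) c d = 1 * R4 R b z c d + t * R4 R b ζ c d :=
    fun b c d => (hlin z ζ b c d 1 t).2.1
  have h3 : ∀ b c d, R4 R b c (fun i => 1 * x i + t * u i) d = 1 * R4 R b c x d + t * R4 R b c u d :=
    fun b c d => (hlin x u b c d 1 t).2.2.1
  have h4 : ∀ b c d, R4 R b c d (fun i => 1 * z i + t * ζ i) = 1 * R4 R b c d z + t * R4 R b c d ζ :=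
    fun b c d => (hlin z ζ b c d 1 t).2.2.2
  rw [h1, h2, h2, h3, h3, h3, h3, h4, h4, h4, h4, h4, h4, h4, h4]
  ring

/-- the coefficients of order zero, one and two of the curvature -/
theorem kCoef {n : ℕ} (hR : G_R4T) (R : T4 n) (i0 i : Fin n) (r : Fin n → ℝ) (hc : IsCurv R)
    (dg : ∀ p q, p ≠ q → R i0 p i0 q = 0) (rr : ∀ p, R i0 p i0 p = r p)
    (q : Fin n) (u : Fin n → ℝ) (hui : u i = 0) :
    ∃ k3 k4 : ℝ, ∀ t : ℝ,
      K2 R (fun j => 1 * (sb i : Fin n → ℝ) j + t * u j)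
        (fun j => 1 * (sb i0 : Fin n → ℝ) j + t * (sb q : Fin n → ℝ) j)
      = r i + t * (2 * R i i0 i q)
        + t ^ 2 * ((∑ p, r p * u p ^ 2) + R i q i q
            + ∑ p, (2 * R i0 q i p - 4 * R i0 p i q) * u p) + t ^ 3 * k3 + t ^ 4 * k4 := by
  obtain ⟨hlin, -, hsym, hK2, -, -, -, -, -, hsb, hexp, -, -⟩ := hR n
  obtain ⟨a12, a34, pair, bian⟩ := hc
  have hsy := hsym R ⟨a12, a34, pair, bian⟩
  refine ⟨R4 R u (sb q) u (sb i0) + R4 R u (sb q) (sb i) (sb q) + R4 R u (sb i0) u (sb q)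
      + R4 R (sb i) (sb q) u (sb q), R4 R u (sb q) u (sb q), fun t => ?_⟩
  rw [hK2, kExp R (fun a a' b c d s t => hlin R a a' b c d s t)]
  have c0 : R4 R (sb i) (sb i0) (sb i) (sb i0) = r i := by
    rw [hsb, ← rr i, a12, a34]; ring
  -- terms with one `u`
  have c1 : R4 R (sb i) (sb i0) u (sb i0) = 0 := by
    rw [(hexp R _ _ u _).2.2.1]
    refine Finset.sum_eq_zero fun p _ => ?_
    rw [hsb]
    by_cases hp : i = p
    · subst hp; rw [hui, zero_mul]
    · rw [a12, a34, dg i p hp]; ring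
  have c1' : R4 R u (sb i0) (sb i) (sb i0) = 0 := by
    rw [(hsy _ _ _ _).2.2.1, c1]
  have c2 : R4 R (sb i) (sb i0) (sb i) (sb q) = R i i0 i q := hsb R _ _ _ _
  have c2' : R4 R (sb i) (sb q) (sb i) (sb i0) = R i i0 i q := by
    rw [(hsy _ _ _ _).2.2.1, c2]
  have c3 : R4 R (sb i) (sb q) (sb i) (sb q) = R i q i q := hsb R _ _ _ _
  have c4 : R4 R u (sb i0) u (sb i0) = ∑ p, r p * u p ^ 2 := by
    rw [(hexp R u _ u _).1]
    refine Finset.sum_congr rfl fun p _ => ?_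
    rw [(hexp R _ _ u _).2.2.1]
    rw [Finset.sum_eq_single p]
    · rw [hsb, ← rr p, a12 p, a34 i0]; ring
    · intro b _ hb
      rw [hsb, a12, a34, dg p b (Ne.symm hb)]; ring
    · intro h; exact absurd (Finset.mem_univ p) h
  have c5 : R4 R u (sb q) (sb i) (sb i0) = ∑ p, (R i0 q i p - R i0 p i q) * u p := by
    rw [(hexp R u _ _ _).1]
    refine Finset.sum_congr rfl fun p _ => ?_
    rw [hsb]
    have b1 := bian i i0 p q
    have b2 := pair p q i i0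
    have b3 := a12 p i i0 q
    have b4 := pair i p i0 q
    rw [b2]
    have : R i i0 p q = R i0 q i p - R i0 p i q := by
      rw [b3, b4] at b1; linarith
    rw [this]; ring
  have c5' : R4 R (sb i) (sb i0) u (sb q) = ∑ p, (R i0 q i p - R i0 p i q) * u p := by
    rw [(hsy _ _ _ _).2.2.1, c5]
  have c6 : R4 R u (sb i0) (sb i) (sb q) = ∑ p, (- R i0 p i q) * u p := by
    rw [(hexp R u _ _ _).1]
    refine Finset.sum_congr rfl fun p _ => ?_
    rw [hsb, a12]; ring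
  have c6' : R4 R (sb i) (sb q) u (sb i0) = ∑ p, (- R i0 p i q) * u p := by
    rw [(hsy _ _ _ _).2.2.1, c6]
  rw [c0, c1, c1', c2, c2', c3, c4, c5, c5', c6, c6']
  have hs : ∑ p, (2 * R i0 q i p - 4 * R i0 p i q) * u p
      = 2 * (∑ p, (R i0 q i p - R i0 p i q) * u p) + 2 * ∑ p, (- R i0 p i q) * u p := by
    rw [Finset.mul_sum, Finset.mul_sum, ← Finset.sum_add_distrib]
    refine Finset.sum_congr rfl fun p _ => ?_
    ring
  rw [hs]
  ring

end SV2aux

open SV2aux in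
theorem g_SV2 (hR4T : G_R4T) (hFO : G_FO) : G_SV2 := by
  intro n R i0 i1 i2 r hF q hq u v hu0 hu1 hv0 hv2
  obtain ⟨-, -, -, hfo⟩ := hFO n R i0 i1 i2 r hF
  have hfq := hfo q hq
  obtain ⟨hc, hfl⟩ := hF.fg
  obtain ⟨k3, k4, hk⟩ := kCoef hR4T R i0 i2 r hc hF.dg hF.rr q v hv2
  obtain ⟨l3, l4, hl⟩ := kCoef hR4T R i0 i1 r hc hF.dg hF.rr q u hu1
  have hn : ∀ w : Fin n → ℝ, nrm w = dot w w := (hR4T n).2.2.2.2.2.2.2.2.1
  have key := coef (2 * R i2 i0 i2 q)
    ((∑ p, r p * v p ^ 2) + R i2 q i2 q + ∑ p, (2 * R i0 q i2 p - 4 * R i0 p i2 q) * v p) k3 k4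
    ((∑ p, r p * u p ^ 2) + R i1 q i1 q + ∑ p, (2 * R i0 q i1 p - 4 * R i0 p i1 q) * u p) l3 l4
    (dot u u + 1 - (if q = i1 then 1 else 0)) 0 (dot u u - u q ^ 2)
    (dot v v + 1 - (if q = i2 then 1 else 0)) 0 (dot v v - v q ^ 2) ?_
  · have s1 : ∑ p, (4 - r p) * u p ^ 2 = 4 * dot u u - ∑ p, r p * u p ^ 2 := by
      simp only [dot, Finset.mul_sum, ← Finset.sum_sub_distrib]
      exact Finset.sum_congr rfl fun p _ => by ring
    have s2 : ∑ p, (r p - 1) * v p ^ 2 = (∑ p, r p * v p ^ 2) - dot v v := by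
      simp only [dot, ← Finset.sum_sub_distrib]
      exact Finset.sum_congr rfl fun p _ => by ring
    have s3 : ∑ p, (2 * R i0 q i1 p - 4 * R i0 p i1 q) * u p
        = - 2 * ∑ p, (2 * R i0 p i1 q - R i0 q i1 p) * u p := by
      simp only [Finset.mul_sum]
      exact Finset.sum_congr rfl fun p _ => by ring
    have s4 : ∑ p, (2 * R i0 q i2 p - 4 * R i0 p i2 q) * v p
        = - 2 * ∑ p, (2 * R i0 p i2 q - R i0 q i2 p) * v p := by
      simp only [Finset.mul_sum]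
      exact Finset.sum_congr rfl fun p _ => by ring
    rw [s3, s4] at key
    rw [s1, s2, Wt]
    refine key.trans (le_of_eq ?_)
    ring
  · intro t
    have h := hfl (fun j => 1 * (sb i0 : Fin n → ℝ) j + t * (sb q : Fin n → ℝ) j)
      (fun j => 1 * (sb i1 : Fin n → ℝ) j + t * u j) (fun j => 1 * (sb i2 : Fin n → ℝ) j + t * v j)
    rw [fl, hk t, hl t, wdExp hn i0 i1 q u hF.d01 hq hu0 hu1 t,
      wdExp hn i0 i2 q v hF.d02 hq hv0 hv2 t, hF.r1, hF.r2, hfq] at h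
    refine h.trans (le_of_eq ?_)
    ring

end Pool.Agent.Helper47.FLG
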